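import Pool.Agent.H75.LT.Defs
import Pool.Agent.H75.UE.E2

/-!
# Project UE, module LT/Ext: the definition of `IsType` and the groups `EE D K θ`

`GU_simple_ext`: the subgroup `E = {g | f g = f' g}` contains all `x_(±α_i)(t)`, so all `nn x α_i t`
(`t ≠ 0`), and conjugation by `nn x α_i 1` maps `x_β(u)` to `x_(s_i β)(± u)` (`n_conj_all`). Every root is
`w α_i` for some `w ∈ W` and some `i` (there is a lemma in R2/R3, or induction on the height: a positive
non-simple root `β` has a simple `α_i` with `ip β α_i > 0`, `s_i β` is positive of smaller height, see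
`refl_simple_pos`; negative roots: `-β`), so `E` contains all `x_β(t)`; `GU.hom_ext`.
`isSigma_sig`: `D.sig θ` satisfies `IsSigma D.ρ θ` (`isSig_GU`, `r_simple`, `sg_simple`, `sg_neg`, `r_neg`), and by
`GU_simple_ext` it is the only one. `fixGroup_sig`: `Up = (GU.sys C K).U 1`, `Um = (GU.sys C K).Um` (`ht` is the
sum of the coordinates; `1 ≤ ht` iff `0 < ht`), `Eg = fixU ⊔ fixUm` is the closure of the union.
`isType_iff`: `orderOf θ = orderOf ρ` iff `θ^[m] = id` and `θ^[l] ≠ id` for `0 < l < m` (`orderOf_eq_iff`,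
`(θ ^ l) t = θ^[l] t`).
-/

set_option autoImplicit false
open Matrix
universe u
namespace Pool.Agent.H75.LT

open Pool.Agent.H75.UL

variable {n : ℕ} {C : SLC n}

/-- The commutator relation in the universal group, solved for the root element of the sum. -/
private theorem Ext_comm {K : Type u} [Field K] (α β γ : C.Root) (t : K) (h : γ.1 = α.1 + β.1) :
    GU.x C K γ t = GU.x C K α (C.eps α.1 β.1) * GU.x C K β t * (GU.x C K α (C.eps α.1 β.1))⁻¹ *
      (GU.x C K β t)⁻¹ := by
  have h1 := (GU.sys C K).comm_add α β γ (C.eps α.1 β.1 : K) t h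
  have h2 : ((C.eps α.1 β.1 : ℤ) : K) * ((C.eps α.1 β.1 : ℤ) : K) = 1 := by
    rw [← Int.cast_mul, C.eps_sq, Int.cast_one]
  rw [h2, one_mul] at h1
  exact h1.symm

private theorem Ext_pos {K : Type u} [Field K] {H : Type*} [Group H] (f f' : GU C K →* H)
    (h : ∀ i t, f (GU.x C K (C.simple i) t) = f' (GU.x C K (C.simple i) t))
    (h' : ∀ i t, f (GU.x C K (-(C.simple i)) t) = f' (GU.x C K (-(C.simple i)) t)) (N : ℕ) :
    ∀ β : C.Root, C.Pos β → ht β.1 ≤ N → ∀ t, f (GU.x C K β t) = f' (GU.x C K β t) ∧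
      f (GU.x C K (-β) t) = f' (GU.x C K (-β) t) := by
  induction N with
  | zero =>
    intro β hβ hN
    unfold SLC.Pos at hβ
    push_cast at hN
    omega
  | succ N ih =>
    intro β hβ hN t
    by_cases hs : ∃ i, β = C.simple i
    · obtain ⟨i, rfl⟩ := hs
      exact ⟨h i t, h' i t⟩
    · push Not at hs
      obtain ⟨i, γ, hγ, hsum⟩ := C.exists_descent β hβ hs
      have hht : ht γ.1 ≤ N := by
        have h1 := congrArg ht hsum
        rw [ht_add, C.ht_simple] at h1
        push_cast at hN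
        omega
      have hsum' : (-β).1 = (-(C.simple i)).1 + (-γ).1 := by
        rw [SLC.Root.neg_val, SLC.Root.neg_val, SLC.Root.neg_val, hsum, neg_add]
      constructor
      · rw [Ext_comm (C.simple i) γ β t hsum]
        simp only [map_mul, map_inv]
        rw [h, (ih γ hγ hht t).1]
      · rw [Ext_comm (-(C.simple i)) (-γ) (-β) t hsum']
        simp only [map_mul, map_inv]
        rw [h', (ih γ hγ hht t).2]

theorem GU_simple_ext {K : Type u} [Field K] {H : Type*} [Group H] (f f' : GU C K →* H)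
    (h : ∀ i t, f (GU.x C K (C.simple i) t) = f' (GU.x C K (C.simple i) t))
    (h' : ∀ i t, f (GU.x C K (-(C.simple i)) t) = f' (GU.x C K (-(C.simple i)) t)) : f = f' := by
  apply GU.hom_ext
  intro β t
  by_cases hβ : C.Pos β
  · exact (Ext_pos f f' h h' (ht β.1).toNat β hβ (Int.self_le_toNat _) t).1
  · have h1 := (C.not_pos_iff β).mp hβ
    have h2 := (Ext_pos f f' h h' (ht (-β).1).toNat (-β) h1 (Int.self_le_toNat _) t).2
    have h3 : - -β = β := C.neg_neg_root β
    rw [h3] at h2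
    exact h2

theorem isSigma_sig (D : Dg C) {K : Type u} [Field K] (θ : K ≃+* K) :
    IsSigma D.ρ θ (D.sig θ) where
  pos := by
    intro i t
    have h := isSig_GU D θ (C.simple i) t
    rw [D.r_simple, D.sg_simple, Int.cast_one, one_mul] at h
    exact h
  neg := by
    intro i t
    have h := isSig_GU D θ (-(C.simple i)) t
    rw [D.r_neg, D.r_simple, D.sg_neg, D.sg_simple, Int.cast_one, one_mul] at h
    exact h

theorem isSigma_unique (ρ : Equiv.Perm (Fin n)) {K : Type u} [Field K] (θ : K ≃+* K)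
    (σ σ' : GU C K →* GU C K) (h : IsSigma ρ θ σ) (h' : IsSigma ρ θ σ') : σ = σ' := by
  apply GU_simple_ext
  · intro i t
    rw [h.pos, h'.pos]
  · intro i t
    rw [h.neg, h'.neg]

private theorem Ext_Up (C : SLC n) (K : Type u) [Field K] : Up C K = (GU.sys C K).U 1 := rfl

private theorem Ext_Um (C : SLC n) (K : Type u) [Field K] : Um C K = (GU.sys C K).Um := rfl

theorem fixGroup_sig (D : Dg C) {K : Type u} [Field K] (θ : K ≃+* K) :
    fixGroup (D.sig θ) = EE D K θ := by
  apply le_antisymm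
  · unfold fixGroup
    rw [Subgroup.closure_le]
    rintro g ⟨hg, hU | hU⟩
    · rw [Ext_Up] at hU
      exact (le_sup_left : fixU (GU.sys C K) (D.sig θ) ≤ _) ⟨hU, hg⟩
    · rw [Ext_Um] at hU
      exact (le_sup_right : fixUm (GU.sys C K) (D.sig θ) ≤ _) ⟨hU, hg⟩
  · refine sup_le ?_ ?_
    · rintro g ⟨hU, hg⟩
      exact Subgroup.subset_closure ⟨hg, Or.inl hU⟩
    · rintro g ⟨hU, hg⟩
      exact Subgroup.subset_closure ⟨hg, Or.inr hU⟩

private theorem Ext_pow {K : Type u} [Field K] (θ : K ≃+* K) (l : ℕ) (t : K) :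
    (θ ^ l : K ≃+* K) t = (⇑θ)^[l] t := by
  induction l generalizing t with
  | zero => rfl
  | succ l ih =>
    rw [pow_succ, Function.iterate_succ_apply, ← ih]
    rfl

private theorem Ext_pow_eq {K : Type u} [Field K] (θ : K ≃+* K) (l : ℕ) :
    θ ^ l = 1 ↔ ∀ t, (⇑θ)^[l] t = t := by
  constructor
  · intro h t
    rw [← Ext_pow, h]
    rfl
  · intro h
    apply RingEquiv.ext
    intro t
    rw [Ext_pow, h]
    rfl

private theorem Ext_kd (D : Dg C) (tw : Bool) {K : Type u} [Field K] (θ : K ≃+* K) :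
    ((tw = false ∧ θ = RingEquiv.refl K ∧ ∀ i, C.A i (D.ρ i) ≠ -1) ∨
      (tw = true ∧ orderOf θ = orderOf D.ρ)) ↔ Kd D tw θ := by
  have hm : 0 < D.m := orderOf_pos D.ρ
  cases tw with
  | false =>
    unfold Kd
    rw [if_neg (by decide)]
    constructor
    · rintro (⟨-, h1, h2⟩ | ⟨h1, -⟩)
      · refine ⟨h2, fun t => ?_⟩
        rw [h1]
        rfl
      · exact absurd h1 (by decide)
    · rintro ⟨h1, h2⟩
      refine Or.inl ⟨rfl, ?_, h1⟩
      apply RingEquiv.ext
      intro t
      rw [h2]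
      rfl
  | true =>
    unfold Kd
    rw [if_pos rfl]
    have h0 : orderOf θ = D.m ↔ _ := orderOf_eq_iff hm
    constructor
    · rintro (⟨h1, -⟩ | ⟨-, h1⟩)
      · exact absurd h1 (by decide)
      · obtain ⟨h2, h3⟩ := h0.mp h1
        refine ⟨(Ext_pow_eq θ _).mp h2, fun l hl hlm => ?_⟩
        have h4 := h3 l hlm hl
        rw [Ne, Ext_pow_eq] at h4
        push Not at h4
        exact h4
    · rintro ⟨h1, h2⟩
      refine Or.inr ⟨rfl, h0.mpr ⟨(Ext_pow_eq θ _).mpr h1, fun l hlm hl => ?_⟩⟩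
      rw [Ne, Ext_pow_eq]
      push Not
      exact h2 l hl hlm

theorem isType_iff (D : Dg C) (tw : Bool) (G : Type u) [Group G] :
    IsType C D.ρ tw G ↔ IsE D tw G := by
  unfold IsType IsE
  constructor
  · rintro ⟨K, hK, θ, σ, h1, h2, h3⟩
    refine ⟨K, hK, θ, (Ext_kd D tw θ).mp h1, ?_⟩
    have h4 : σ = D.sig θ := isSigma_unique D.ρ θ σ (D.sig θ) h2 (isSigma_sig D θ)
    subst h4
    rw [fixGroup_sig] at h3
    exact h3
  · rintro ⟨K, hK, θ, h1, h2⟩
    refine ⟨K, hK, θ, D.sig θ, (Ext_kd D tw θ).mpr h1, isSigma_sig D θ, ?_⟩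
    rw [fixGroup_sig]
    exact h2

end Pool.Agent.H75.LT
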