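import Pool.Agent.H75.LT.Defs
import Pool.Agent.H86.UM.ZT

/-!
# Groups of Lie type: Suzuki-Ree types (MP_978914_al)

`B₂`, `G₂`, `F₄` are folded diagrams `A₃`, `D₄`, `E₆` with a symmetry `ρ` of order `p = 2, 3, 2`; the group
of this type over a field `K` of characteristic `p` is `fixGroup σ₀`, where `σ₀` is the automorphism of the
universal group of type `A₃`, `D₄`, `E₆` given by `ρ` (and the identity of `K`). Its root elements for the
simple roots and their negatives are `ye` below. The matrices and the maps `τ` are in `H86/UM/ZT.lean`.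
-/

set_option autoImplicit false

universe u

namespace Pool.Agent.H75.LT

open Pool.Agent.H75.UL Pool.Agent.H86.UM

section
variable {n : ℕ} {C : SLC n} {K : Type u} [Field K]

/-- The root elements of the folded group for the simple root given by the orbit of the node `i`: the
product of the elements `x_α(t)`, `α` in the orbit of the simple root `α_i` under `ρ` (they commute). -/
noncomputable def yp (C : SLC n) (ρ : Equiv.Perm (Fin n)) (i : Fin n) (t : K) : GU C K :=
  ((List.range (if ρ i = i then 1 else orderOf ρ)).map fun l =>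
    GU.x C K (C.simple ((ρ ^ l) i)) t).prod

/-- The same for the negative of this root. -/
noncomputable def ym (C : SLC n) (ρ : Equiv.Perm (Fin n)) (i : Fin n) (t : K) : GU C K :=
  ((List.range (if ρ i = i then 1 else orderOf ρ)).map fun l =>
    GU.x C K (-(C.simple ((ρ ^ l) i))) t).prod

/-- `σ` maps `y_(±i)(t)` to `y_(±τ i)(θ⁻¹ t)` if `i` is fixed by `ρ` (long simple roots) and to
`y_(±τ i)(θ t)` otherwise (short simple roots). (These elements generate the group, so `σ` is determined
by `τ` and `θ`.) -/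
structure IsSigmaEx (ρ : Equiv.Perm (Fin n)) (τ : Fin n → Fin n) (θ : K ≃+* K)
    {σ₀ : GU C K →* GU C K} (σ : fixGroup σ₀ →* fixGroup σ₀) : Prop where
  pos : ∀ (i : Fin n) (t : K) (x : fixGroup σ₀), (x : GU C K) = yp C ρ i t →
    (σ x : GU C K) = yp C ρ (τ i) (if ρ i = i then θ.symm t else θ t)
  neg : ∀ (i : Fin n) (t : K) (x : fixGroup σ₀), (x : GU C K) = ym C ρ i t →
    (σ x : GU C K) = ym C ρ (τ i) (if ρ i = i then θ.symm t else θ t)

/-- The subgroup generated by the `σ`-fixed points of `U⁺` and of `U⁻` (of the folded group). -/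
def exGroup {σ₀ : GU C K →* GU C K} (σ : fixGroup σ₀ →* fixGroup σ₀) : Subgroup (fixGroup σ₀) :=
  Subgroup.closure {g | σ g = g ∧ ((g : GU C K) ∈ Up C K ∨ (g : GU C K) ∈ Um C K)}

end

/-- `G` is a group of Suzuki-Ree type: it is isomorphic to the quotient of the group generated by the
`σ`-fixed points of `U⁺` and `U⁻` in the folded group over a field `K` of characteristic `p` by a central
subgroup, where `θ` is an automorphism of `K` with `θ² = (x ↦ x ^ p)`. -/
def IsSR {n : ℕ} (C : SLC n) (ρ : Equiv.Perm (Fin n)) (τ : Fin n → Fin n) (p : ℕ)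
    (G : Type u) [Group G] : Prop :=
  ∃ (K : Type u) (_ : Field K) (θ : K ≃+* K) (σ₀ : GU C K →* GU C K)
    (σ : fixGroup σ₀ →* fixGroup σ₀), CharP K p ∧ (∀ x, θ (θ x) = x ^ p) ∧
    IsSigma ρ (RingEquiv.refl K) σ₀ ∧ IsSigmaEx ρ τ θ σ ∧
    ∃ f : exGroup σ →* G, Function.Surjective f ∧ f.ker ≤ Subgroup.center (exGroup σ)

/-- `G` is a group of Lie type of rank `r`: untwisted, of Steinberg type, or of Suzuki-Ree type
(`²B₂` and `²G₂` have rank `1`, `²F₄` has rank `2`). -/
def IsLieType (r : ℕ) (G : Type u) [Group G] : Prop :=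
  IsLie r G ∨ (r = 1 ∧ IsSR cA3 dA3.ρ tA3 2 G) ∨ (r = 1 ∧ IsSR cD4 dD4.ρ tD4 3 G) ∨
    (r = 2 ∧ IsSR cE6 dE6.ρ tE6 2 G)

end Pool.Agent.H75.LT
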